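import Mathlib
import Pool.Agent.H12.ChromAgree

set_option autoImplicit false

namespace Pool.Agent.Results.MP_e243c1_co.Quadratic

theorem result (t : ℕ) (ht : 1 ≤ t) (n : ℕ) (F : Finset (SimpleGraph (Fin n)))
    (h : ∀ G ∈ F, ∀ H ∈ F, (t : ℕ∞) ≤ (G ⊓ H).chromaticNumber) :
    (F.card : ℝ) ≤ 2 ^ ((n.choose 2 : ℝ) - (((t : ℝ) - 1) ^ 2 / 256 + (t - 1) / 2)) :=
  Pool.Agent.H12.ChromAgree.family_inf n t ht F h

end Pool.Agent.Results.MP_e243c1_co.Quadratic
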